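import Pool.Agent.Q231.NewtonPyr.Basic

/-!
# The Newton covering number of a right pyramid over a cube depends on its height

In the plane the isosceles triangle with base `1` and height `1/10` has Newton covering number `2`,
while the equilateral triangle (height `√3/2`) has Newton covering number `3`.
-/

namespace Pool.Agent.Results.MP_90eaab_co.HeightMatters

open Pool.Agent.Q231.NewtonPyr

theorem result :
    (newton (pyramid 1 (1 / 10)) = 2 ∧ newton (pyramid 1 (Real.sqrt 3 / 2)) = 3) ∧
    ¬ ∀ k : ℕ, 1 ≤ k → ∀ h h' : ℝ, 0 < h → 0 < h' →
      newton (pyramid k h) = newton (pyramid k h') := by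
  refine ⟨⟨newton_flat, newton_equilateral⟩, fun H => ?_⟩
  have h1 := H 1 le_rfl (1 / 10) (Real.sqrt 3 / 2) (by norm_num) (by positivity)
  rw [newton_flat, newton_equilateral] at h1
  exact absurd h1 (by decide)

end Pool.Agent.Results.MP_90eaab_co.HeightMatters
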